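import Pool.Agent.H656R2.SplitGame.NoA

universe u

/-- For every uncountable set `E`, player A has no winning strategy in the set-splitting
game `G(E)`. -/
theorem Pool.Agent.Results.MP_053b7f_lc.NoWinA.result (E : Type u) [Uncountable E] :
    ¬ Pool.Agent.H656R2.SplitGame.AHasWinningStrategy E :=
  Pool.Agent.H656R2.SplitGame.not_AHasWinningStrategy E
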